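import Mathlib

set_option autoImplicit false

/-!
Covers of spanning-coloured complete bipartite graphs by monochromatic components:
definitions, and the lower bound `2k - 4`.
-/

namespace Pool.Agent.H393R3.CovBip

/-- The subgraph of the complete bipartite graph with classes `A` and `B` formed by the edges of
colour `i`; the edge between `a : A` and `b : B` has colour `c a b`. -/
def colourGraph {A B : Type} {k : ℕ} (c : A → B → Fin k) (i : Fin k) : SimpleGraph (A ⊕ B) where
  Adj u v := (∃ a b, u = Sum.inl a ∧ v = Sum.inr b ∧ c a b = i) ∨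
    (∃ a b, u = Sum.inr b ∧ v = Sum.inl a ∧ c a b = i)
  symm := by
    constructor
    rintro u v (⟨a, b, h1, h2, h3⟩ | ⟨a, b, h1, h2, h3⟩)
    · exact Or.inr ⟨a, b, h2, h1, h3⟩
    · exact Or.inl ⟨a, b, h2, h1, h3⟩
  loopless := by
    constructor
    rintro u (⟨a, b, h1, h2, h3⟩ | ⟨a, b, h1, h2, h3⟩)
    · rw [h1] at h2
      exact absurd h2 (by simp)
    · rw [h1] at h2
      exact absurd h2 (by simp)

/-- The colouring is spanning: every vertex is incident to an edge of each colour that occurs. -/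
def Spanning {A B : Type} {k : ℕ} (c : A → B → Fin k) : Prop :=
  ∀ i : Fin k, (∃ a b, c a b = i) → (∀ a, ∃ b, c a b = i) ∧ (∀ b, ∃ a, c a b = i)

/-- `s` is the vertex set of a monochromatic component. -/
def IsMonoComponent {A B : Type} {k : ℕ} (c : A → B → Fin k) (s : Set (A ⊕ B)) : Prop :=
  ∃ (i : Fin k) (C : (colourGraph c i).ConnectedComponent), s = C.supp

/-- The least number of monochromatic components whose union is the whole vertex set. -/
noncomputable def coverNumber {A B : Type} {k : ℕ} (c : A → B → Fin k) : ℕ :=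
  sInf {m | ∃ S : Finset (Set (A ⊕ B)), S.card = m ∧ (∀ s ∈ S, IsMonoComponent c s) ∧
    ∀ v, ∃ s ∈ S, v ∈ s}

/-- All values `c(G)` for complete bipartite graphs `G` (finite, both classes nonempty) carrying a
spanning `k`-colouring. -/
def covSet (k : ℕ) : Set ℕ :=
  {n | ∃ (A B : Type) (_ : Finite A) (_ : Finite B) (_ : Nonempty A) (_ : Nonempty B)
    (c : A → B → Fin k), Spanning c ∧ coverNumber c = n}

/-- The number `cov(2,k)`. -/
noncomputable def cov (k : ℕ) : ℕ := sSup (covSet k)

section general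

variable {A B : Type} {k : ℕ} {c : A → B → Fin k}

theorem cover_le [Finite A] [Finite B] (a0 : A) (b0 : B) :
    ∃ S : Finset (Set (A ⊕ B)), S.card ≤ 2 * k ∧ (∀ s ∈ S, IsMonoComponent c s) ∧
      ∀ v, ∃ s ∈ S, v ∈ s := by
  classical
  let f : Fin k → Set (A ⊕ B) := fun i =>
    ((colourGraph c i).connectedComponentMk (Sum.inl a0)).supp
  let g : Fin k → Set (A ⊕ B) := fun i =>
    ((colourGraph c i).connectedComponentMk (Sum.inr b0)).supp
  refine ⟨Finset.univ.image f ∪ Finset.univ.image g, ?_, ?_, ?_⟩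
  · refine (Finset.card_union_le _ _).trans ?_
    have h1 : (Finset.univ.image f).card ≤ k := by
      simpa using (Finset.card_image_le (s := Finset.univ) (f := f))
    have h2 : (Finset.univ.image g).card ≤ k := by
      simpa using (Finset.card_image_le (s := Finset.univ) (f := g))
    omega
  · intro s hs
    rw [Finset.mem_union, Finset.mem_image, Finset.mem_image] at hs
    rcases hs with ⟨i, -, rfl⟩ | ⟨i, -, rfl⟩
    · exact ⟨i, _, rfl⟩
    · exact ⟨i, _, rfl⟩
  · rintro (a | b)
    · refine ⟨g (c a b0), Finset.mem_union_right _ (Finset.mem_image_of_mem _ (Finset.mem_univ _)), ?_⟩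
      rw [SimpleGraph.ConnectedComponent.mem_supp_iff, SimpleGraph.ConnectedComponent.eq]
      exact (SimpleGraph.Adj.reachable (Or.inl ⟨a, b0, rfl, rfl, rfl⟩))
    · refine ⟨f (c a0 b), Finset.mem_union_left _ (Finset.mem_image_of_mem _ (Finset.mem_univ _)), ?_⟩
      rw [SimpleGraph.ConnectedComponent.mem_supp_iff, SimpleGraph.ConnectedComponent.eq]
      exact (SimpleGraph.Adj.reachable (Or.inr ⟨a0, b, rfl, rfl, rfl⟩))

theorem coverNumber_le [Finite A] [Finite B] [Nonempty A] [Nonempty B] : coverNumber c ≤ 2 * k := by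
  obtain ⟨a0⟩ := ‹Nonempty A›
  obtain ⟨b0⟩ := ‹Nonempty B›
  obtain ⟨S, h1, h2, h3⟩ := cover_le (c := c) a0 b0
  have hmem : S.card ∈ {m | ∃ S : Finset (Set (A ⊕ B)), S.card = m ∧
    (∀ s ∈ S, IsMonoComponent c s) ∧ ∀ v, ∃ s ∈ S, v ∈ s} := ⟨S, rfl, h2, h3⟩
  exact (Nat.sInf_le hmem).trans h1

theorem le_coverNumber [Finite A] [Finite B] [Nonempty A] [Nonempty B] (m : ℕ)
    (h : ∀ S : Finset (Set (A ⊕ B)), (∀ s ∈ S, IsMonoComponent c s) → (∀ v, ∃ s ∈ S, v ∈ s) →
      m ≤ S.card) : m ≤ coverNumber c := by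
  obtain ⟨a0⟩ := ‹Nonempty A›
  obtain ⟨b0⟩ := ‹Nonempty B›
  obtain ⟨S, h1, h2, h3⟩ := cover_le (c := c) a0 b0
  have hne : Set.Nonempty {m | ∃ S : Finset (Set (A ⊕ B)), S.card = m ∧
    (∀ s ∈ S, IsMonoComponent c s) ∧ ∀ v, ∃ s ∈ S, v ∈ s} := ⟨_, S, rfl, h2, h3⟩
  obtain ⟨S', e, h2', h3'⟩ := Nat.sInf_mem hne
  have := h S' h2' h3'
  rw [e] at this
  exact this

theorem adj_val {W : Type} {w : Fin k → A ⊕ B → W}
    (hw : ∀ a b, w (c a b) (Sum.inl a) = w (c a b) (Sum.inr b)) (i : Fin k) {u v : A ⊕ B}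
    (h : (colourGraph c i).Adj u v) : w i u = w i v := by
  rcases h with ⟨a, b, rfl, rfl, rfl⟩ | ⟨a, b, rfl, rfl, rfl⟩
  · exact hw a b
  · exact (hw a b).symm

theorem reach_val {W : Type} {w : Fin k → A ⊕ B → W}
    (hw : ∀ a b, w (c a b) (Sum.inl a) = w (c a b) (Sum.inr b)) (i : Fin k) {u v : A ⊕ B}
    (h : (colourGraph c i).Reachable u v) : w i u = w i v := by
  obtain ⟨p⟩ := h
  induction p with
  | nil => rfl
  | cons hadj p ih => exact (adj_val hw i hadj).trans ih

theorem exists_T {W : Type} {w : Fin k → A ⊕ B → W}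
    (hw : ∀ a b, w (c a b) (Sum.inl a) = w (c a b) (Sum.inr b))
    (S : Finset (Set (A ⊕ B))) (hS : ∀ s ∈ S, IsMonoComponent c s) (hcov : ∀ v, ∃ s ∈ S, v ∈ s) :
    ∃ T : Finset (Fin k × W), T.card ≤ S.card ∧ ∀ v, ∃ p ∈ T, w p.1 v = p.2 := by
  classical
  have h1 : ∀ s : {s // s ∈ S}, ∃ p : Fin k × W, ∀ v ∈ s.1, w p.1 v = p.2 := by
    rintro ⟨s, hs⟩
    obtain ⟨i, C, rfl⟩ := hS s hs
    obtain ⟨u, rfl⟩ := C.exists_rep
    refine ⟨(i, w i u), fun v hv => ?_⟩
    have hv' := SimpleGraph.ConnectedComponent.exact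
      ((SimpleGraph.ConnectedComponent.mem_supp_iff _ _).1 hv)
    exact reach_val hw i hv'
  choose f hf using h1
  refine ⟨S.attach.image f, ?_, ?_⟩
  · refine Finset.card_image_le.trans ?_
    rw [Finset.card_attach]
  · intro v
    obtain ⟨s, hs, hv⟩ := hcov v
    exact ⟨f ⟨s, hs⟩, Finset.mem_image_of_mem _ (Finset.mem_attach _ _), hf ⟨s, hs⟩ v hv⟩

end general

section construction

variable (n N : ℕ)

/-- The row of the forbidden cell of a column. -/
def z (i : Fin (n + 4)) : Fin (n + 4) := if i = 0 then 1 else i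

theorem z_ne_zero (i : Fin (n + 4)) : z n i ≠ 0 := by
  unfold z
  split_ifs with h
  · intro e
    have := congrArg Fin.val e
    simp at this
  · exact h

theorem z_eq (i r : Fin (n + 4)) (h : z n i = r) : i = r ∨ i = 0 := by
  unfold z at h
  split_ifs at h with h1
  · exact Or.inr h1
  · exact Or.inl h

/-- First class: a row together with fresh values. -/
abbrev V1 : Type := {r : Fin (n + 4) // r ≠ 0} × (Fin (n + 4) → Fin N)

/-- Second class: a permutation avoiding the forbidden cells, together with a fresh value. -/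
abbrev V2 : Type := {π : Equiv.Perm (Fin (n + 4)) // ∀ r, z n (π r) ≠ r} × Fin N

/-- The colouring. -/
def col (a : V1 n N) (b : V2 n N) : Fin (n + 4) :=
  if z n (b.1.1 0) = a.1.1 ∧ a.2 (b.1.1 0) = b.2 then b.1.1 0 else b.1.1 a.1.1

/-- The class of a vertex in colour `i`. -/
def val (i : Fin (n + 4)) : V1 n N ⊕ V2 n N → Fin N ⊕ Fin (n + 4)
  | Sum.inl a => if z n i = a.1.1 then Sum.inl (a.2 i) else Sum.inr a.1.1
  | Sum.inr b => if b.1.1 0 = i then Sum.inl b.2 else Sum.inr (b.1.1.symm i)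

theorem val_col (a : V1 n N) (b : V2 n N) :
    val n N (col n N a b) (Sum.inl a) = val n N (col n N a b) (Sum.inr b) := by
  unfold col
  split_ifs with h
  · simp only [val]
    rw [if_pos h.1, h.2]
    simp
  · simp only [val]
    rw [if_neg (b.1.2 a.1.1), if_neg, Equiv.symm_apply_apply]
    intro e
    exact a.1.2 (b.1.1.injective e).symm

/-- Existence of permutations avoiding the forbidden cells, with one prescribed value. -/
theorem exists_perm (r i : Fin (n + 4)) (h : z n i ≠ r) :
    ∃ π : Equiv.Perm (Fin (n + 4)), π r = i ∧ ∀ r', z n (π r') ≠ r' := by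
  classical
  let t : Fin (n + 4) → Finset (Fin (n + 4)) := fun r' =>
    if r' = r then {i} else Finset.univ.filter (fun i' => z n i' ≠ r' ∧ i' ≠ i)
  have ht1 : t r = {i} := if_pos rfl
  have ht2 : ∀ r', r' ≠ r → ∀ i', (i' ∈ t r' ↔ z n i' ≠ r' ∧ i' ≠ i) := by
    intro r' hr' i'
    simp only [t]
    rw [if_neg hr']
    simp
  -- one row other than `r` has a free cell
  have hone : ∀ r', r' ≠ r → ∃ i', i' ∈ t r' := by
    intro r' hr'
    by_contra hno
    push Not at hno
    have hsub : (Finset.univ : Finset (Fin (n + 4))) ⊆ {r', 0, i} := by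
      intro i' _
      have h1 := hno i'
      rw [ht2 r' hr' i'] at h1
      simp only [Finset.mem_insert, Finset.mem_singleton]
      by_cases h2 : i' = i
      · exact Or.inr (Or.inr h2)
      · have h3 : z n i' = r' := by
          by_contra h4
          exact h1 ⟨h4, h2⟩
        rcases z_eq n i' r' h3 with h5 | h5
        · exact Or.inl h5
        · exact Or.inr (Or.inl h5)
    have h6 := Finset.card_le_card hsub
    have h7 : ({r', 0, i} : Finset (Fin (n + 4))).card ≤ 3 := Finset.card_le_three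
    rw [Finset.card_univ, Fintype.card_fin] at h6
    omega
  have hall : ∀ s : Finset (Fin (n + 4)), s.card ≤ (s.biUnion t).card := by
    intro s
    -- the part of `s` away from `r`
    let s' := s.erase r
    by_cases hr : r ∈ s
    · have hcard : s.card = s'.card + 1 := by
        have h8 : (s.erase r).card + 1 = s.card := Finset.card_erase_add_one hr
        exact h8.symm
      have hi : i ∈ s.biUnion t := by
        rw [Finset.mem_biUnion]
        exact ⟨r, hr, by rw [ht1]; exact Finset.mem_singleton_self i⟩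
      rcases Nat.lt_or_ge s'.card 2 with hlt | hge
      · rcases Nat.lt_or_ge s'.card 1 with h0 | h1
        · have : 1 ≤ (s.biUnion t).card := Finset.card_pos.2 ⟨i, hi⟩
          omega
        · obtain ⟨r1, hr1⟩ := Finset.card_pos.1 (show 0 < s'.card by omega)
          have hr1' := Finset.mem_erase.1 hr1
          obtain ⟨i1, hi1⟩ := hone r1 hr1'.1
          have hne : i1 ≠ i := ((ht2 r1 hr1'.1 i1).1 hi1).2
          have hi1' : i1 ∈ s.biUnion t := Finset.mem_biUnion.2 ⟨r1, hr1'.2, hi1⟩
          have h2 : ({i1, i} : Finset (Fin (n + 4))) ⊆ s.biUnion t := by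
            intro x hx
            rw [Finset.mem_insert, Finset.mem_singleton] at hx
            rcases hx with rfl | rfl
            · exact hi1'
            · exact hi
          have h3 := Finset.card_le_card h2
          rw [Finset.card_pair hne] at h3
          omega
      · obtain ⟨r1, hr1, r2, hr2, h12⟩ := Finset.one_lt_card.1 (show 1 < s'.card by omega)
        have hr1' := Finset.mem_erase.1 hr1
        have hr2' := Finset.mem_erase.1 hr2
        have huniv : s.biUnion t = Finset.univ := by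
          rw [Finset.eq_univ_iff_forall]
          intro x
          by_cases hx : x = i
          · rw [hx]; exact hi
          · by_cases hz : z n x = r1
            · exact Finset.mem_biUnion.2 ⟨r2, hr2'.2, (ht2 r2 hr2'.1 x).2 ⟨by rw [hz]; exact h12, hx⟩⟩
            · exact Finset.mem_biUnion.2 ⟨r1, hr1'.2, (ht2 r1 hr1'.1 x).2 ⟨hz, hx⟩⟩
        rw [huniv]
        exact Finset.card_le_card (Finset.subset_univ s)
    · rcases Nat.lt_or_ge s.card 2 with hlt | hge
      · rcases Nat.lt_or_ge s.card 1 with h0 | h1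
        · omega
        · obtain ⟨r1, hr1⟩ := Finset.card_pos.1 (show 0 < s.card by omega)
          have hne : r1 ≠ r := fun e => hr (e ▸ hr1)
          obtain ⟨i1, hi1⟩ := hone r1 hne
          have : 1 ≤ (s.biUnion t).card :=
            Finset.card_pos.2 ⟨i1, Finset.mem_biUnion.2 ⟨r1, hr1, hi1⟩⟩
          omega
      · obtain ⟨r1, hr1, r2, hr2, h12⟩ := Finset.one_lt_card.1 (show 1 < s.card by omega)
        have hr1' : r1 ≠ r := fun e => hr (e ▸ hr1)
        have hr2' : r2 ≠ r := fun e => hr (e ▸ hr2)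
        have hsub : Finset.univ.erase i ⊆ s.biUnion t := by
          intro x hx
          have hx' := (Finset.mem_erase.1 hx).1
          by_cases hz : z n x = r1
          · exact Finset.mem_biUnion.2 ⟨r2, hr2, (ht2 r2 hr2' x).2 ⟨by rw [hz]; exact h12, hx'⟩⟩
          · exact Finset.mem_biUnion.2 ⟨r1, hr1, (ht2 r1 hr1' x).2 ⟨hz, hx'⟩⟩
        have h3 := Finset.card_le_card hsub
        have h4 : s ⊆ Finset.univ.erase r := by
          intro x hx
          exact Finset.mem_erase.2 ⟨fun e => hr (e ▸ hx), Finset.mem_univ x⟩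
        have h5 := Finset.card_le_card h4
        rw [Finset.card_erase_of_mem (Finset.mem_univ _)] at h3 h5
        omega
  obtain ⟨f, hf1, hf2⟩ := (Finset.all_card_le_biUnion_card_iff_exists_injective t).1 hall
  refine ⟨Equiv.ofBijective f (Finite.injective_iff_bijective.1 hf1), ?_, ?_⟩
  · have := hf2 r
    rw [ht1, Finset.mem_singleton] at this
    exact this
  · intro r'
    by_cases hr' : r' = r
    · subst hr'
      have := hf2 r'
      rw [ht1, Finset.mem_singleton] at this
      rw [Equiv.ofBijective_apply, this]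
      exact h
    · exact ((ht2 r' hr' _).1 (hf2 r')).1

theorem spanning_col (hN : 2 ≤ N) : Spanning (col n N) := by
  have hother : ∀ y : Fin N, ∃ y' : Fin N, y' ≠ y := by
    intro y
    by_cases h : y = ⟨0, by omega⟩
    · refine ⟨⟨1, by omega⟩, ?_⟩
      rw [h]
      intro e
      have := congrArg Fin.val e
      simp at this
    · exact ⟨⟨0, by omega⟩, fun e => h e.symm⟩
  intro i _
  constructor
  · rintro ⟨⟨r, hr⟩, x⟩
    by_cases hz : z n i = r
    · obtain ⟨π, h1, h2⟩ := exists_perm n 0 i (z_ne_zero n i)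
      refine ⟨⟨⟨π, h2⟩, x i⟩, ?_⟩
      unfold col
      simp only
      rw [h1, if_pos ⟨hz, rfl⟩]
    · obtain ⟨π, h1, h2⟩ := exists_perm n r i hz
      obtain ⟨y', hy'⟩ := hother (x (π 0))
      refine ⟨⟨⟨π, h2⟩, y'⟩, ?_⟩
      unfold col
      simp only
      rw [if_neg, h1]
      rintro ⟨-, h4⟩
      exact hy' h4.symm
  · rintro ⟨⟨π, hπ⟩, y⟩
    by_cases h0 : π 0 = i
    · refine ⟨⟨⟨z n i, z_ne_zero n i⟩, fun _ => y⟩, ?_⟩
      unfold col
      simp only
      rw [if_pos ⟨by rw [h0], trivial⟩, h0]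
    · obtain ⟨y', hy'⟩ := hother y
      refine ⟨⟨⟨π.symm i, ?_⟩, fun _ => y'⟩, ?_⟩
      · intro e
        apply h0
        rw [← e, Equiv.apply_symm_apply]
      · unfold col
        simp only
        rw [if_neg, Equiv.apply_symm_apply]
        rintro ⟨-, h4⟩
        exact hy' h4

theorem main_bound (T : Finset (Fin (n + 4) × (Fin N ⊕ Fin (n + 4))))
    (hTN : T.card < N)
    (hcov : ∀ v : V1 n N ⊕ V2 n N, ∃ p ∈ T, val n N p.1 v = p.2) :
    2 * n + 4 ≤ T.card := by
  classical
  have hfresh : ∀ i : Fin (n + 4), ∃ y : Fin N, (i, (Sum.inl y : Fin N ⊕ Fin (n + 4))) ∉ T := by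
    intro i
    by_contra hno
    push Not at hno
    have h1 : (Finset.univ : Finset (Fin N)).card ≤ T.card := by
      apply Finset.card_le_card_of_injOn (fun y => (i, (Sum.inl y : Fin N ⊕ Fin (n + 4))))
      · intro y _
        exact hno y
      · intro y _ y' _ e
        simpa using e
    rw [Finset.card_univ, Fintype.card_fin] at h1
    omega
  choose y hy using hfresh
  let T' : Finset (Fin (n + 4) × Fin (n + 4)) := Finset.univ.filter
    (fun p => p.1 ≠ 0 ∧ z n p.2 ≠ p.1 ∧ (p.2, (Sum.inr p.1 : Fin N ⊕ Fin (n + 4))) ∈ T)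
  have hT' : ∀ r i, (r, i) ∈ T' ↔ (r ≠ 0 ∧ z n i ≠ r ∧ (i, (Sum.inr r : Fin N ⊕ Fin (n + 4))) ∈ T) := by
    intro r i
    simp [T']
  have hcardT : T'.card ≤ T.card := by
    apply Finset.card_le_card_of_injOn (fun p => (p.2, (Sum.inr p.1 : Fin N ⊕ Fin (n + 4))))
    · rintro ⟨r, i⟩ hp
      exact ((hT' r i).1 hp).2.2
    · rintro ⟨r, i⟩ _ ⟨r', i'⟩ _ e
      simp only [Prod.mk.injEq, Sum.inr.injEq] at e
      rw [e.1, e.2]
  have hA : ∀ r : Fin (n + 4), r ≠ 0 → ∃ i, (r, i) ∈ T' := by
    intro r hr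
    obtain ⟨p, hp, he⟩ := hcov (Sum.inl (⟨r, hr⟩, y))
    simp only [val] at he
    split_ifs at he with h1
    · exfalso
      apply hy p.1
      rw [he]
      exact hp
    · refine ⟨p.1, (hT' r p.1).2 ⟨hr, h1, ?_⟩⟩
      rw [he]
      exact hp
  have hB : ∀ π : Equiv.Perm (Fin (n + 4)), (∀ r, z n (π r) ≠ r) → ∃ r, (r, π r) ∈ T' := by
    intro π hπ
    obtain ⟨p, hp, he⟩ := hcov (Sum.inr (⟨π, hπ⟩, y (π 0)))
    simp only [val] at he
    split_ifs at he with h1
    · exfalso
      have e : p = (p.1, Sum.inl (y p.1)) := by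
        refine Prod.ext rfl ?_
        simp only
        rw [← he, h1]
      exact hy p.1 (e ▸ hp)
    · refine ⟨π.symm p.1, (hT' _ _).2 ⟨?_, hπ _, ?_⟩⟩
      · intro e
        apply h1
        rw [← e, Equiv.apply_symm_apply]
      · rw [Equiv.apply_symm_apply, he]
        exact hp
  -- Hall
  let t : Fin (n + 4) → Finset (Fin (n + 4)) := fun r =>
    if r = 0 then Finset.univ else Finset.univ.filter (fun i => z n i ≠ r ∧ (r, i) ∉ T')
  have ht0 : t 0 = Finset.univ := if_pos rfl
  have ht : ∀ r, r ≠ 0 → ∀ i, (i ∈ t r ↔ z n i ≠ r ∧ (r, i) ∉ T') := by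
    intro r hr i
    simp only [t]
    rw [if_neg hr]
    simp
  have hnot : ¬ ∀ s : Finset (Fin (n + 4)), s.card ≤ (s.biUnion t).card := by
    intro hall
    obtain ⟨f, hf1, hf2⟩ := (Finset.all_card_le_biUnion_card_iff_exists_injective t).1 hall
    let π : Equiv.Perm (Fin (n + 4)) := Equiv.ofBijective f (Finite.injective_iff_bijective.1 hf1)
    have hπf : ∀ r, π r = f r := fun r => rfl
    obtain ⟨r, hr⟩ := hB π (by
      intro r
      by_cases h0 : r = 0
      · rw [h0]
        exact z_ne_zero n _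
      · rw [hπf]
        exact ((ht r h0 _).1 (hf2 r)).1)
    have h0 := ((hT' _ _).1 hr).1
    rw [hπf] at hr
    exact ((ht r h0 _).1 (hf2 r)).2 hr
  push Not at hnot
  obtain ⟨R, hR⟩ := hnot
  have h0R : (0 : Fin (n + 4)) ∉ R := by
    intro h0
    have h1 : R.biUnion t = Finset.univ := by
      rw [Finset.eq_univ_iff_forall]
      intro x
      exact Finset.mem_biUnion.2 ⟨0, h0, by rw [ht0]; exact Finset.mem_univ x⟩
    rw [h1] at hR
    exact absurd (Finset.card_le_card (Finset.subset_univ R)) (by omega)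
  set Nc : Finset (Fin (n + 4)) := (R.biUnion t)ᶜ with hNc
  have hNcmem : ∀ i ∈ Nc, ∀ r ∈ R, z n i ≠ r → (r, i) ∈ T' := by
    intro i hi r hr hz
    by_contra hno
    rw [hNc, Finset.mem_compl] at hi
    apply hi
    have hr0 : r ≠ 0 := fun e => h0R (e ▸ hr)
    exact Finset.mem_biUnion.2 ⟨r, hr, (ht r hr0 i).2 ⟨hz, hno⟩⟩
  have hcardNc : Nc.card + (R.biUnion t).card = n + 4 := by
    have := Finset.card_compl_add_card (R.biUnion t)
    rw [Fintype.card_fin] at this
    exact this
  have hRle : R.card ≤ n + 3 := by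
    have h4 : R ⊆ Finset.univ.erase 0 := by
      intro x hx
      exact Finset.mem_erase.2 ⟨fun e => h0R (e ▸ hx), Finset.mem_univ x⟩
    have h5 := Finset.card_le_card h4
    rw [Finset.card_erase_of_mem (Finset.mem_univ _), Finset.card_univ, Fintype.card_fin] at h5
    omega
  -- counting
  let Q : Finset (Fin (n + 4)) := Nc.filter (fun i => z n i ∈ R)
  have hQ1 : Q.card ≤ Nc.card := Finset.card_filter_le _ _
  have hQ2 : Q.card ≤ R.card + 1 := by
    have h1 : Q ⊆ insert 0 R := by
      intro i hi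
      have h2 := (Finset.mem_filter.1 hi).2
      rcases z_eq n i _ rfl with h3 | h3
      · rw [Finset.mem_insert]
        right
        rw [h3]
        exact h2
      · rw [h3]
        exact Finset.mem_insert_self _ _
    exact (Finset.card_le_card h1).trans (Finset.card_insert_le _ _)
  -- the cells in the rows of `R`
  let T1 : Finset (Fin (n + 4) × Fin (n + 4)) := (R ×ˢ Nc).filter (fun p => z n p.2 ≠ p.1)
  let T1' : Finset (Fin (n + 4) × Fin (n + 4)) := (R ×ˢ Nc).filter (fun p => ¬ z n p.2 ≠ p.1)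
  have hT1 : T1.card + T1'.card = R.card * Nc.card := by
    rw [← Finset.card_product]
    exact Finset.card_filter_add_card_filter_not _
  have hT1' : T1'.card ≤ Q.card := by
    apply Finset.card_le_card_of_injOn (fun p => p.2)
    · rintro ⟨r, i⟩ hp
      have hp' := Finset.mem_filter.1 (Finset.mem_coe.1 hp)
      have hp2 := Finset.mem_product.1 hp'.1
      have hz : z n i = r := by
        by_contra h
        exact hp'.2 h
      apply Finset.mem_coe.2
      refine Finset.mem_filter.2 ⟨hp2.2, ?_⟩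
      simp only
      rw [hz]
      exact hp2.1
    · rintro ⟨r, i⟩ hp ⟨r', i'⟩ hp' e
      have hz : z n i = r := by
        by_contra h
        exact (Finset.mem_filter.1 (Finset.mem_coe.1 hp)).2 h
      have hz' : z n i' = r' := by
        by_contra h
        exact (Finset.mem_filter.1 (Finset.mem_coe.1 hp')).2 h
      simp only at e
      rw [← hz, ← hz', e]
  -- one cell in each of the other rows
  let Ro : Finset (Fin (n + 4)) := (insert 0 R)ᶜ
  have hRo : Ro.card + (R.card + 1) = n + 4 := by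
    have h1 := Finset.card_compl_add_card (insert (0 : Fin (n + 4)) R)
    rw [Finset.card_insert_of_notMem h0R, Fintype.card_fin] at h1
    exact h1
  have hex : ∀ r : Fin (n + 4), ∃ i, r ≠ 0 → (r, i) ∈ T' := by
    intro r
    by_cases h : r = 0
    · exact ⟨0, fun h' => absurd h h'⟩
    · obtain ⟨i, hi⟩ := hA r h
      exact ⟨i, fun _ => hi⟩
  choose g hg using hex
  let T2 : Finset (Fin (n + 4) × Fin (n + 4)) := Ro.image (fun r => (r, g r))
  have hT2 : T2.card = Ro.card := by
    apply Finset.card_image_of_injective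
    intro r r' e
    exact (Prod.mk.inj e).1
  have hmemRo : ∀ r, r ∈ Ro ↔ (r ≠ 0 ∧ r ∉ R) := by
    intro r
    simp [Ro]
  have hdisj : Disjoint T1 T2 := by
    rw [Finset.disjoint_left]
    rintro ⟨r, i⟩ h1 h2
    have h3 := (Finset.mem_product.1 (Finset.mem_filter.1 h1).1).1
    obtain ⟨r', hr', e⟩ := Finset.mem_image.1 h2
    have e1 := (Prod.mk.inj e).1
    rw [e1] at hr'
    exact ((hmemRo r).1 hr').2 h3
  have hsub : T1 ∪ T2 ⊆ T' := by
    intro p hp
    rcases Finset.mem_union.1 hp with h | h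
    · obtain ⟨r, i⟩ := p
      have h1 := Finset.mem_filter.1 h
      have h2 := Finset.mem_product.1 h1.1
      exact hNcmem i h2.2 r h2.1 h1.2
    · obtain ⟨r, hr, rfl⟩ := Finset.mem_image.1 h
      exact hg r ((hmemRo r).1 hr).1
  have hfin := Finset.card_le_card hsub
  rw [Finset.card_union_of_disjoint hdisj, hT2] at hfin
  -- arithmetic
  generalize hρ : R.card = ρ at *
  generalize hc : Nc.card = c at *
  generalize hq : Q.card = q at *
  generalize hu : (R.biUnion t).card = u at *
  have hρ1 : 1 ≤ ρ := by omega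
  have hc1 : n + 5 ≤ c + ρ := by omega
  have hkey : ρ * c + (n + 3 - ρ) ≤ T'.card + q := by omega
  rcases Nat.lt_or_ge ρ (n + 3) with hlt | hge
  · -- ρ ≤ n + 2
    obtain ⟨a, ha⟩ : ∃ a, ρ = a + 1 := ⟨ρ - 1, by omega⟩
    obtain ⟨b, hb⟩ : ∃ b, n + 2 = ρ + b := ⟨n + 2 - ρ, by omega⟩
    obtain ⟨d, hd⟩ : ∃ d, c = b + 3 + d := ⟨c - (b + 3), by omega⟩
    have h1 : ρ * c = (a + 1) * (b + 3 + d) := by rw [ha, hd]
    have h2 : (a + 1) * (b + 3 + d) = a * b + 3 * a + b + 3 + d * (a + 1) := by ring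
    have h3 : 0 ≤ a * b := Nat.zero_le _
    have h4 : 0 ≤ d * (a + 1) := Nat.zero_le _
    omega
  · have hρ2 : ρ = n + 3 := by omega
    obtain ⟨d, hd⟩ : ∃ d, c = 2 + d := ⟨c - 2, by omega⟩
    have h1 : ρ * c = (n + 3) * (2 + d) := by rw [hρ2, hd]
    have h2 : (n + 3) * (2 + d) = 2 * n + 6 + (n + 3) * d := by ring
    have h3 : d ≤ (n + 3) * d := Nat.le_mul_of_pos_left d (by omega)
    omega

theorem large_cover : ∃ m ∈ covSet (n + 4), 2 * n + 4 ≤ m := by
  have hN : 2 ≤ 2 * n + 5 := by omega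
  have hne1 : Nonempty (V1 n (2 * n + 5)) :=
    ⟨⟨⟨z n 0, z_ne_zero n 0⟩, fun _ => ⟨0, by omega⟩⟩⟩
  have hne2 : Nonempty (V2 n (2 * n + 5)) := by
    obtain ⟨π, -, h2⟩ := exists_perm n 0 0 (z_ne_zero n 0)
    exact ⟨⟨⟨π, h2⟩, ⟨0, by omega⟩⟩⟩
  refine ⟨coverNumber (col n (2 * n + 5)), ⟨V1 n (2 * n + 5), V2 n (2 * n + 5), inferInstance,
    inferInstance, hne1, hne2, col n (2 * n + 5), spanning_col n (2 * n + 5) hN, rfl⟩, ?_⟩
  apply le_coverNumber
  intro S hS hcov
  obtain ⟨T, hT1, hT2⟩ := exists_T (w := val n (2 * n + 5)) (val_col n (2 * n + 5)) S hS hcov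
  by_contra hlt
  push Not at hlt
  have h := main_bound n (2 * n + 5) T (by omega) hT2
  omega

end construction

end Pool.Agent.H393R3.CovBip
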