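import Pool.Agent.H741R4.QStmts2

/-! Derrida-Hilhorst problem MP_132c94_pr, Q1: positivity of the singular part (task of helper741). -/

open MeasureTheory ProbabilityTheory Filter Topology
open Pool.Agent.H741R4.DH

universe u

namespace Pool.Agent.H393R3.DHPos

noncomputable section

variable {Ω : Type*} [mΩ : MeasurableSpace Ω] {P : Measure Ω} {Z : ℕ → Ω → ℝ} {α : ℝ}

/-- truncated power -/
def TT (α a K x : ℝ) : ℝ := if K < a * x then x ^ α else 0

lemma measurable_TT (α a K : ℝ) : Measurable (TT α a K) := by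
  unfold TT
  exact Measurable.ite (measurableSet_lt measurable_const (measurable_const.mul measurable_id))
    (measurable_id.pow_const α) measurable_const

lemma TT_nonneg {α a K x : ℝ} (hx : 0 ≤ x) : 0 ≤ TT α a K x := by
  unfold TT; split_ifs
  · exact Real.rpow_nonneg hx _
  · exact le_rfl

lemma TT_le {α a K x : ℝ} (hx : 0 ≤ x) : TT α a K x ≤ x ^ α := by
  unfold TT; split_ifs
  · exact le_rfl
  · exact Real.rpow_nonneg hx _

lemma cl_TT (hα : 0 ≤ α) (a K : ℝ) : Cl α (TT α a K) :=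
  (cl_pow hα le_rfl).of_le (measurable_TT α a K) fun x hx => by
    rw [abs_of_nonneg (TT_nonneg hx)]; exact TT_le hx

lemma cl_g {a : ℝ} (ha : 0 < a) {m : ℕ} (hm : (m : ℝ) ≤ α) :
    Cl α (fun x => (a * x) ^ (m + 1) / (1 + a * x)) := by
  refine ((cl_npow hm).const_mul (a ^ m)).of_le ?_ fun x hx => ?_
  · exact ((measurable_const.mul measurable_id).pow_const (m + 1)).div
      (measurable_const.add (measurable_const.mul measurable_id))
  · have h0 : 0 ≤ a * x := by positivity
    have h1 : 0 < 1 + a * x := by positivity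
    rw [abs_of_nonneg (by positivity), div_le_iff₀ h1, pow_succ, ← mul_pow]
    have h2 : 0 ≤ (a * x) ^ m := by positivity
    nlinarith

lemma B_split {a K x : ℝ} (hα : 1 ≤ α) {m : ℕ} (hm : (m : ℝ) < α) (ha : 0 < a) (ha1 : a ≤ 1)
    (hK : 1 ≤ K) (hx : 0 ≤ x) :
    Bf α a x ≤ α * 2 ^ α * a * x +
      (α * 2 ^ α * K ^ (α - m) * (1 + K)) * a ^ (-α) * ((a * x) ^ (m + 1) / (1 + a * x)) +
      2 ^ α * TT α a K x := by
  have hα0 : 0 < α := by linarith
  have hy : 0 ≤ a * x := by positivity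
  have h2α : (0 : ℝ) < 2 ^ α := Real.rpow_pos_of_pos two_pos _
  have haα : 0 < a ^ (-α) := Real.rpow_pos_of_pos ha _
  have hKα : 0 < K ^ (α - m) := Real.rpow_pos_of_pos (by linarith) _
  have hH : 0 < 1 + a * x := by positivity
  have hg : 0 ≤ (a * x) ^ (m + 1) / (1 + a * x) := by positivity
  by_cases h : K < a * x
  · have hT : TT α a K x = x ^ α := by unfold TT; rw [if_pos h]
    rw [hT]
    have hx1 : 1 ≤ x := by nlinarith
    have h1 := B_le_V (α := α) ha hx
    have h2 : (1 + x) ^ α ≤ 2 ^ α * x ^ α := by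
      rw [← Real.mul_rpow (by norm_num) hx]
      exact Real.rpow_le_rpow (by linarith) (by linarith) hα0.le
    have h3 : 0 ≤ α * 2 ^ α * a * x := by positivity
    have hK0 : 0 < 1 + K := by linarith
    have h4 : 0 ≤ (α * 2 ^ α * K ^ (α - m) * (1 + K)) * a ^ (-α) *
        ((a * x) ^ (m + 1) / (1 + a * x)) := by positivity
    linarith
  · push Not at h
    have hT : TT α a K x = 0 := by unfold TT; rw [if_neg (not_lt.2 h)]
    rw [hT, mul_zero, add_zero]
    -- `1 - H^{-α} ≤ α y`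
    have h1 : 1 - (1 + a * x) ^ (-α) ≤ α * (a * x) := by
      have h1 : 1 + α * (-(kap a x)) ≤ (1 + -(kap a x)) ^ α :=
        one_add_mul_self_le_rpow_one_add (by have := kap_le_one ha hx; linarith) hα
      have h2 : 1 + -(kap a x) = (1 + a * x)⁻¹ := by
        unfold kap; have := hH.ne'; field_simp; ring
      rw [h2, Real.inv_rpow hH.le, ← Real.rpow_neg hH.le] at h1
      have h3 : kap a x ≤ a * x := by
        unfold kap
        rw [div_le_iff₀ hH]
        nlinarith
      nlinarith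
    have h5 : 0 ≤ (1 + x) ^ α := Real.rpow_nonneg (by linarith) _
    have hB : Bf α a x ≤ (1 + x) ^ α * (α * (a * x)) := by
      rw [B_eq ha hx]
      exact mul_le_mul_of_nonneg_left h1 h5
    have hxα : 0 ≤ x ^ α := Real.rpow_nonneg hx _
    have hV : (1 + x) ^ α ≤ 2 ^ α * (1 + x ^ α) := by
      rcases le_total x 1 with hx1 | hx1
      · have : (1 + x) ^ α ≤ 2 ^ α := Real.rpow_le_rpow (by linarith) (by linarith) hα0.le
        nlinarith
      · have : (1 + x) ^ α ≤ 2 ^ α * x ^ α := by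
          rw [← Real.mul_rpow (by norm_num) hx]
          exact Real.rpow_le_rpow (by linarith) (by linarith) hα0.le
        nlinarith
    have hxy : x ^ α = a ^ (-α) * ((a * x) ^ m * (a * x) ^ (α - m)) := by
      have e1 : (a * x) ^ α = (a * x) ^ m * (a * x) ^ (α - m) := by
        rw [← Real.rpow_natCast (a * x) m, ← Real.rpow_add' hy (by
          have : (m : ℝ) + (α - m) = α := by ring
          rw [this]; exact hα0.ne')]
        congr 1; ring
      rw [← e1, Real.mul_rpow ha.le hx, ← mul_assoc, ← Real.rpow_add ha]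
      simp
    have h6 : (a * x) ^ (α - m) ≤ K ^ (α - m) := Real.rpow_le_rpow hy h (by linarith)
    have h7 : (a * x) ^ (m + 1) ≤ (a * x) ^ (m + 1) / (1 + a * x) * (1 + K) := by
      have e : (a * x) ^ (m + 1) = (a * x) ^ (m + 1) / (1 + a * x) * (1 + a * x) := by
        field_simp
      calc (a * x) ^ (m + 1) = (a * x) ^ (m + 1) / (1 + a * x) * (1 + a * x) := e
        _ ≤ (a * x) ^ (m + 1) / (1 + a * x) * (1 + K) :=
          mul_le_mul_of_nonneg_left (by linarith) hg
    have h8 : x ^ α * (a * x) ≤ a ^ (-α) * (K ^ (α - m) *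
        ((a * x) ^ (m + 1) / (1 + a * x) * (1 + K))) := by
      rw [hxy]
      calc a ^ (-α) * ((a * x) ^ m * (a * x) ^ (α - m)) * (a * x) =
          a ^ (-α) * ((a * x) ^ (α - m) * (a * x) ^ (m + 1)) := by rw [pow_succ]; ring
        _ ≤ a ^ (-α) * (K ^ (α - m) * ((a * x) ^ (m + 1) / (1 + a * x) * (1 + K))) := by
          apply mul_le_mul_of_nonneg_left _ haα.le
          exact mul_le_mul h6 h7 (by positivity) hKα.le
    calc Bf α a x ≤ (1 + x) ^ α * (α * (a * x)) := hB
      _ ≤ 2 ^ α * (1 + x ^ α) * (α * (a * x)) := mul_le_mul_of_nonneg_right hV (by positivity)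
      _ = α * 2 ^ α * a * x + (α * 2 ^ α) * (x ^ α * (a * x)) := by ring
      _ ≤ α * 2 ^ α * a * x + (α * 2 ^ α) * (a ^ (-α) * (K ^ (α - m) *
        ((a * x) ^ (m + 1) / (1 + a * x) * (1 + K)))) := by
          have := mul_le_mul_of_nonneg_left h8 (by positivity : 0 ≤ α * 2 ^ α)
          linarith
      _ = _ := by ring

/-- the scales -/
def lam (a : ℝ) (j : ℕ) : ℝ := a * Real.exp j

lemma lam_pos {a : ℝ} (ha : 0 < a) (j : ℕ) : 0 < lam a j := mul_pos ha (Real.exp_pos _)

/-- indicator weight -/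
def iw (α K : ℝ) (j : ℕ) (z : ℝ) : ℝ := if K * Real.exp j < z then z ^ α else 0

lemma iw_nonneg {K z : ℝ} (hz : 0 ≤ z) (j : ℕ) : 0 ≤ iw α K j z := by
  unfold iw; split_ifs
  · exact Real.rpow_nonneg hz _
  · exact le_rfl

lemma iw_le {K z : ℝ} (hz : 0 ≤ z) (j : ℕ) : iw α K j z ≤ z ^ α := by
  unfold iw; split_ifs
  · exact le_rfl
  · exact Real.rpow_nonneg hz _

lemma measurable_iw (α K : ℝ) (j : ℕ) : Measurable (iw α K j) := by
  unfold iw
  exact Measurable.ite (measurableSet_lt measurable_const measurable_id)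
    (measurable_id.pow_const α) measurable_const

lemma ff_one {δ y : ℝ} (hδ : 0 < δ) (hy : 0 < y) (hy1 : y ≤ 1) : ff α δ y = y ^ (α + δ) := by
  unfold ff
  have h1 : (y ^ δ) ^ 2 ≤ 1 := by
    have h := Real.rpow_le_one hy.le hy1 hδ.le
    have h0 := Real.rpow_nonneg hy.le δ
    nlinarith
  rw [min_eq_left h1, ← Real.rpow_natCast (y ^ δ) 2, ← Real.rpow_mul hy.le, ← Real.rpow_add hy]
  congr 1
  push_cast
  ring

lemma point {a K δ z v : ℝ} (hα : 0 < α) (hδ : 0 < δ) (ha : 0 < a) (hK : 0 < K)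
    (hz : 0 < z) (hv1 : 1 ≤ v) (hv2 : v ≤ 1 / a) :
    TT α a K (z * v) ≤ ∑ j ∈ Finset.range (⌈Real.log (1 / a)⌉₊ + 1),
      (Real.exp (α + δ) * lam a j ^ (-α) * ff α δ (lam a j * v)) * iw α K j z := by
  have hv : 0 < v := by linarith
  have hterm : ∀ j ∈ Finset.range (⌈Real.log (1 / a)⌉₊ + 1), 0 ≤
      (Real.exp (α + δ) * lam a j ^ (-α) * ff α δ (lam a j * v)) * iw α K j z := by
    intro j _
    have h1 := lam_pos ha j
    have h2 : 0 ≤ ff α δ (lam a j * v) := ff_nonneg (by positivity)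
    have h3 := iw_nonneg (α := α) (K := K) hz.le j
    have h4 := Real.rpow_nonneg h1.le (-α)
    positivity
  by_cases h : K < a * (z * v)
  swap
  · unfold TT
    rw [if_neg h]
    exact Finset.sum_nonneg hterm
  have hT : TT α a K (z * v) = z ^ α * v ^ α := by
    unfold TT; rw [if_pos h, Real.mul_rpow hz.le hv.le]
  have hav : 0 < a * v := by positivity
  have hav1 : a * v ≤ 1 := by
    rw [le_div_iff₀ ha] at hv2; linarith
  set t : ℝ := -Real.log (a * v) with ht
  have ht0 : 0 ≤ t := by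
    have := Real.log_nonpos hav.le hav1
    linarith
  set j : ℕ := ⌊t⌋₊ with hj
  have hj1 : (j : ℝ) ≤ t := Nat.floor_le ht0
  have hj2 : t < j + 1 := Nat.lt_floor_add_one t
  have hexp : a * v = Real.exp (-t) := by rw [ht, neg_neg, Real.exp_log hav]
  have htl : t ≤ Real.log (1 / a) := by
    rw [one_div, Real.log_inv, ht]
    have : Real.log a ≤ Real.log (a * v) := Real.log_le_log ha (by nlinarith)
    linarith
  have hjJ : j ∈ Finset.range (⌈Real.log (1 / a)⌉₊ + 1) := by
    rw [Finset.mem_range, Nat.lt_succ_iff, hj]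
    exact (Nat.floor_le_ceil t).trans (Nat.ceil_mono htl)
  have hu : lam a j * v = Real.exp (j - t) := by
    unfold lam
    have : a * Real.exp j * v = (a * v) * Real.exp j := by ring
    rw [this, hexp, ← Real.exp_add]
    congr 1; ring
  have hu1 : lam a j * v ≤ 1 := by
    rw [hu]; exact Real.exp_le_one_iff.2 (by linarith)
  have hu0 : 0 < lam a j * v := mul_pos (lam_pos ha j) hv
  have hiw : iw α K j z = z ^ α := by
    unfold iw
    rw [if_pos]
    have e1 : a * (z * v) = z * Real.exp (-t) := by rw [← hexp]; ring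
    rw [e1] at h
    have e2 : Real.exp (-t) ≤ Real.exp (-(j : ℝ)) := Real.exp_le_exp.2 (by linarith)
    have e3 : K < z * Real.exp (-(j : ℝ)) := lt_of_lt_of_le h (mul_le_mul_of_nonneg_left e2 hz.le)
    calc K * Real.exp j < z * Real.exp (-(j : ℝ)) * Real.exp j :=
          mul_lt_mul_of_pos_right e3 (Real.exp_pos _)
      _ = z := by rw [mul_assoc, ← Real.exp_add]; simp
  have hff : 1 ≤ Real.exp (α + δ) * ff α δ (lam a j * v) := by
    rw [ff_one hδ hu0 hu1, hu, ← Real.exp_mul, ← Real.exp_add]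
    apply Real.one_le_exp
    nlinarith
  have hvle : v ^ α ≤ lam a j ^ (-α) := by
    have hl := lam_pos ha j
    have e1 : v = (lam a j * v) * (lam a j)⁻¹ := by field_simp
    have e2 : v ≤ (lam a j)⁻¹ := by
      rw [e1]
      have : 0 ≤ (lam a j)⁻¹ := by positivity
      nlinarith
    rw [Real.rpow_neg hl.le, ← Real.inv_rpow hl.le]
    exact Real.rpow_le_rpow hv.le e2 hα.le
  rw [hT]
  refine le_trans ?_ (Finset.single_le_sum hterm hjJ)
  rw [hiw]
  have hz0 : 0 ≤ z ^ α := Real.rpow_nonneg hz.le _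
  have hl0 : 0 ≤ lam a j ^ (-α) := Real.rpow_nonneg (lam_pos ha j).le _
  have h9 : v ^ α ≤ Real.exp (α + δ) * lam a j ^ (-α) * ff α δ (lam a j * v) := by
    calc v ^ α ≤ lam a j ^ (-α) * 1 := by rw [mul_one]; exact hvle
      _ ≤ lam a j ^ (-α) * (Real.exp (α + δ) * ff α δ (lam a j * v)) :=
        mul_le_mul_of_nonneg_left hff hl0
      _ = _ := by ring
  calc z ^ α * v ^ α ≤ z ^ α * (Real.exp (α + δ) * lam a j ^ (-α) * ff α δ (lam a j * v)) :=
        mul_le_mul_of_nonneg_left h9 hz0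
    _ = _ := by ring

/-- the tail function -/
def Psi (α K z : ℝ) : ℝ := if K < z then z ^ α * (1 + Real.log z) else 0

lemma measurable_Psi (α K : ℝ) : Measurable (Psi α K) := by
  unfold Psi
  exact Measurable.ite (measurableSet_lt measurable_const measurable_id)
    ((measurable_id.pow_const α).mul (measurable_const.add Real.measurable_log)) measurable_const

lemma count {K z : ℝ} (hK : 1 ≤ K) (hz : 0 < z) (N : ℕ) :
    ∑ j ∈ Finset.range N, iw α K j z ≤ Psi α K z := by
  have hzα := Real.rpow_nonneg hz.le α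
  unfold Psi
  split_ifs with h
  · have hz1 : 1 < z := by linarith
    have hlog : 0 ≤ Real.log z := Real.log_nonneg hz1.le
    have h1 : ∀ j ∈ Finset.range N, iw α K j z ≤ if j < ⌈Real.log z⌉₊ then z ^ α else 0 := by
      intro j _
      unfold iw
      by_cases h2 : K * Real.exp j < z
      · rw [if_pos h2, if_pos]
        rw [Nat.lt_ceil, Real.lt_log_iff_exp_lt hz]
        have := Real.exp_pos (j : ℝ)
        nlinarith
      · rw [if_neg h2]
        split_ifs
        · exact hzα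
        · exact le_rfl
    refine (Finset.sum_le_sum h1).trans ?_
    rw [← Finset.sum_filter, Finset.sum_const, nsmul_eq_mul]
    have h3 : ((Finset.range N).filter (fun j => j < ⌈Real.log z⌉₊)).card ≤ ⌈Real.log z⌉₊ := by
      calc _ ≤ (Finset.range ⌈Real.log z⌉₊).card := by
            apply Finset.card_le_card
            intro j hj
            rw [Finset.mem_filter] at hj
            exact Finset.mem_range.2 hj.2
        _ = _ := Finset.card_range _
    have h4 : ((⌈Real.log z⌉₊ : ℕ) : ℝ) ≤ 1 + Real.log z := by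
      have := Nat.ceil_lt_add_one hlog
      linarith
    have h5 : ((((Finset.range N).filter (fun j => j < ⌈Real.log z⌉₊)).card : ℕ) : ℝ) ≤
        1 + Real.log z := le_trans (by exact_mod_cast h3) h4
    calc _ ≤ (1 + Real.log z) * z ^ α := mul_le_mul_of_nonneg_right h5 hzα
      _ = _ := by ring
  · apply Finset.sum_nonpos
    intro j _
    unfold iw
    rw [if_neg]
    have h6 : 1 ≤ Real.exp (j : ℝ) := Real.one_le_exp (Nat.cast_nonneg j)
    push Not at h ⊢
    nlinarith

lemma Psi_abs_le {K z : ℝ} : |Psi α K z| ≤ |z ^ α * (1 + Real.log z)| := by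
  unfold Psi; split_ifs
  · exact le_rfl
  · rw [abs_zero]; exact abs_nonneg _

lemma int_Psi_dom (S : Setup P Z α)
    (hlog : Integrable (fun ω => (Z 0 ω) ^ α * Real.log (Z 0 ω)) P) :
    Integrable (fun ω => (Z 0 ω) ^ α * (1 + Real.log (Z 0 ω))) P := by
  refine (S.int_α.add hlog).congr (Eventually.of_forall fun ω => ?_)
  simp only [Pi.add_apply]
  ring

lemma int_Psi (S : Setup P Z α)
    (hlog : Integrable (fun ω => (Z 0 ω) ^ α * Real.log (Z 0 ω)) P) (K : ℝ) :
    Integrable (fun ω => Psi α K (Z 0 ω)) P := by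
  refine Integrable.mono (int_Psi_dom S hlog)
    ((measurable_Psi α K).comp (S.meas 0)).aestronglyMeasurable (Eventually.of_forall fun ω => ?_)
  rw [Real.norm_eq_abs, Real.norm_eq_abs]
  exact Psi_abs_le

lemma tail (S : Setup P Z α)
    (hlog : Integrable (fun ω => (Z 0 ω) ^ α * Real.log (Z 0 ω)) P) :
    Tendsto (fun K : ℕ => ∫ ω, Psi α K (Z 0 ω) ∂P) atTop (𝓝 0) := by
  have h := tendsto_integral_of_dominated_convergence (μ := P)
    (F := fun (K : ℕ) ω => Psi α K (Z 0 ω)) (f := fun _ => (0 : ℝ))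
    (fun ω => |(Z 0 ω) ^ α * (1 + Real.log (Z 0 ω))|)
    (fun K => ((measurable_Psi α K).comp (S.meas 0)).aestronglyMeasurable)
    (int_Psi_dom S hlog).abs
    (fun K => Eventually.of_forall fun ω => by rw [Real.norm_eq_abs]; exact Psi_abs_le)
    (Eventually.of_forall fun ω => by
      apply tendsto_const_nhds.congr'
      filter_upwards [eventually_ge_atTop ⌈Z 0 ω⌉₊] with K hK
      have h1 : Z 0 ω ≤ K := (Nat.le_ceil _).trans (by exact_mod_cast hK)
      unfold Psi
      rw [if_neg (not_lt.2 h1)])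
  simpa using h

lemma int_iw (S : Setup P Z α) (K : ℝ) (j : ℕ) : Integrable (fun ω => iw α K j (Z 0 ω)) P := by
  refine Integrable.mono' S.int_α ((measurable_iw α K j).comp (S.meas 0)).aestronglyMeasurable ?_
  filter_upwards [S.pos] with ω hω
  rw [Real.norm_eq_abs, abs_of_nonneg (iw_nonneg hω.le j)]
  exact iw_le hω.le j

lemma Lam_TT (S : Setup P Z α) {δ : ℝ} (hδ : 0 < δ) (hδα : δ < α)
    (hlog : Integrable (fun ω => (Z 0 ω) ^ α * Real.log (Z 0 ω)) P) :
    ∃ C, 0 ≤ C ∧ ∀ a, 0 < a → a ≤ 1 → ∀ K, 1 ≤ K →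
      Lam P Z a (TT α a K) ≤ C * ∫ ω, Psi α K (Z 0 ω) ∂P := by
  obtain ⟨CG, hCG0, hCG⟩ := S.G_bound
  have hα := S.α_pos
  set c0 : ℝ := 1 / 2 * (1 - qd P Z (α - δ)) with hc0
  have hc0pos : 0 < c0 := by
    have := S.q_lt_one (s := α - δ) (by linarith) (by linarith)
    rw [hc0]; unfold qd; linarith
  refine ⟨Real.exp (α + δ) * (CG / c0), by positivity, fun a ha ha1 K hK => ?_⟩
  set N := ⌈Real.log (1 / a)⌉₊ + 1 with hN
  set e : ℕ → ℝ := fun j => ∫ ω, iw α K j (Z 0 ω) ∂P with he
  have he0 : ∀ j, 0 ≤ e j := by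
    intro j
    apply integral_nonneg_of_ae
    filter_upwards [S.pos] with ω hω using iw_nonneg hω.le j
  have hclf : ∀ j, Cl α (fun x => ff α δ (lam a j * W a x)) := by
    intro j
    have hl := (lam_pos ha j).le
    refine ((cl_W ha (by linarith : 0 ≤ α - δ) (by linarith)).const_mul
      (lam a j ^ (α - δ))).of_le
      ((measurable_ff α δ).comp (measurable_const.mul (measurable_W a))) fun x hx => ?_
    have hW := (W_pos ha hx).le
    rw [abs_of_nonneg (ff_nonneg (by positivity)), ← Real.mul_rpow hl hW]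
    exact ff_le (by positivity)
  have hT := cl_TT hα.le a K
  have hsum : Cl α (fun x => ∑ j ∈ Finset.range N,
      (Real.exp (α + δ) * lam a j ^ (-α) * e j) * ff α δ (lam a j * W a x)) :=
    cl_sum hα.le _ fun j _ => (hclf j).const_mul _
  rw [S.Lam_inv ha ha1 hT]
  have h1 : Lam P Z a (fun x => Av P Z (TT α a K) (W a x)) ≤
      Lam P Z a (fun x => ∑ j ∈ Finset.range N,
        (Real.exp (α + δ) * lam a j ^ (-α) * e j) * ff α δ (lam a j * W a x)) := by
    apply S.Lam_mono ha ha1 (S.cl_AvW ha hT) hsum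
    intro x hx
    have hv1 := one_le_W ha ha1 hx
    have hv2 := W_le_inv ha ha1 hx
    set v := W a x with hv
    have h2 : Av P Z (TT α a K) v ≤ ∫ ω, ∑ j ∈ Finset.range N,
        (Real.exp (α + δ) * lam a j ^ (-α) * ff α δ (lam a j * v)) * iw α K j (Z 0 ω) ∂P := by
      unfold Av
      refine integral_mono_ae (S.int_Av hT (by linarith)) ?_ ?_
      · exact integrable_finsetSum _ fun j _ => (int_iw S K j).const_mul _
      · filter_upwards [S.pos] with ω hω
        exact point hα hδ ha (by linarith) hω hv1 hv2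
    rw [integral_finsetSum _ fun j _ => (int_iw S K j).const_mul _] at h2
    refine h2.trans (le_of_eq ?_)
    apply Finset.sum_congr rfl
    intro j _
    rw [integral_const_mul]
    simp only [he]
    ring
  refine h1.trans ?_
  rw [S.Lam_sum ha ha1 _ fun j _ => (hclf j).const_mul _]
  have h3 : ∀ j ∈ Finset.range N, Lam P Z a (fun x =>
      (Real.exp (α + δ) * lam a j ^ (-α) * e j) * ff α δ (lam a j * W a x)) ≤
      Real.exp (α + δ) * (CG / c0) * e j := by
    intro j _
    rw [S.Lam_const_mul ha ha1 (hclf j)]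
    have hl := lam_pos ha j
    have h4 := S.scale_bound hδα hδ ha ha1 hl
    have h5 : c0 * Lam P Z a (fun x => ff α δ (lam a j * W a x)) ≤ lam a j ^ α * CG :=
      h4.trans (mul_le_mul_of_nonneg_left (hCG a ha ha1) (Real.rpow_nonneg hl.le _))
    have h6 : Lam P Z a (fun x => ff α δ (lam a j * W a x)) ≤ lam a j ^ α * (CG / c0) := by
      rw [← mul_div_assoc, le_div_iff₀ hc0pos]
      linarith
    have h7 : 0 ≤ Real.exp (α + δ) * lam a j ^ (-α) * e j := by
      have := Real.rpow_nonneg hl.le (-α)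
      have := he0 j
      positivity
    calc _ ≤ (Real.exp (α + δ) * lam a j ^ (-α) * e j) * (lam a j ^ α * (CG / c0)) :=
          mul_le_mul_of_nonneg_left h6 h7
      _ = (Real.exp (α + δ) * (CG / c0) * e j) * (lam a j ^ (-α) * lam a j ^ α) := by ring
      _ = _ := by rw [← Real.rpow_add hl]; simp
  refine (Finset.sum_le_sum h3).trans ?_
  rw [← Finset.mul_sum]
  apply mul_le_mul_of_nonneg_left _ (by positivity)
  simp only [he]
  rw [← integral_finsetSum _ fun j _ => int_iw S K j]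
  refine integral_mono_ae (integrable_finsetSum _ fun j _ => int_iw S K j)
    (int_Psi S hlog K) ?_
  filter_upwards [S.pos] with ω hω
  exact count hK hω N

theorem taskPos : TaskPos.{u} := by
  intro Ω _ P Z α m S hm1 hmα hαm hlog
  have hα := S.α_pos
  have hα1 : 1 < α := lt_of_le_of_lt (by exact_mod_cast hm1) hmα
  obtain ⟨C, hC0, hC⟩ := Lam_TT S (δ := 1 / 2) (by norm_num) (by linarith) hlog
  obtain ⟨C1, hC10, hC1⟩ := S.V_bound (s := 1) one_pos hα1
  have h2α : (0 : ℝ) < 2 ^ α := Real.rpow_pos_of_pos two_pos _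
  -- choose K
  have ht := (tail S hlog).const_mul (2 ^ α * C)
  rw [mul_zero] at ht
  obtain ⟨K, hK1, hK2⟩ := ((ht.eventually_le_const (show (0 : ℝ) < 1 / 4 by norm_num)).and
    (eventually_ge_atTop 1)).exists
  have hK : (1 : ℝ) ≤ (K : ℝ) := by exact_mod_cast hK2
  set CK : ℝ := α * 2 ^ α * (K : ℝ) ^ (α - m) * (1 + K) with hCK
  have hKα : 0 < (K : ℝ) ^ (α - m) := Real.rpow_pos_of_pos (by linarith) _
  have hCK0 : 0 < CK := by rw [hCK]; positivity
  refine ⟨1 / (2 * CK), by positivity, ?_⟩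
  have hsmall : ∀ᶠ a in 𝓝[>] (0 : ℝ), α * 2 ^ α * a * C1 ≤ 1 / 4 := by
    have h1 : Tendsto (fun a : ℝ => α * 2 ^ α * a * C1) (𝓝[>] 0) (𝓝 (α * 2 ^ α * 0 * C1)) := by
      apply Tendsto.mono_left _ nhdsWithin_le_nhds
      exact ((tendsto_id.const_mul _).mul_const _)
    rw [mul_zero, zero_mul] at h1
    exact h1.eventually_le_const (by norm_num)
  filter_upwards [Setup.ev_Ioc, hsmall] with a ha hs
  have hclx : Cl α (fun x : ℝ => x) := by
    have := cl_npow (α := α) (k := 1) (by exact_mod_cast hα1.le)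
    simpa using this
  have hclg := cl_g (α := α) ha.1 hmα.le
  have hclT := cl_TT hα.le a (K : ℝ)
  have haα : 0 < a ^ (-α) := Real.rpow_pos_of_pos ha.1 _
  have hLx : Lam P Z a (fun x : ℝ => x) ≤ C1 := by
    refine le_trans (S.Lam_mono ha.1 ha.2 hclx (cl_V hα1.le) fun x hx => ?_) (hC1 a ha.1 ha.2)
    rw [Real.rpow_one]; linarith
  have h1 := S.one_le_G ha.1 ha.2
  rw [← S.Lam_B ha.1 ha.2] at h1
  have hc1 := hclx.const_mul (α * 2 ^ α * a)
  have hc2 := hclg.const_mul (CK * a ^ (-α))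
  have hc3 := hclT.const_mul (2 ^ α)
  have h2 := S.Lam_mono ha.1 ha.2 (cl_B ha.1 hα.le) ((hc1.add hc2).add hc3) (fun x hx => by
    have := B_split (α := α) (m := m) S.hα hmα ha.1 ha.2 hK hx
    rw [hCK]
    exact this)
  rw [S.Lam_add ha.1 ha.2 (hc1.add hc2) hc3, S.Lam_add ha.1 ha.2 hc1 hc2,
    S.Lam_const_mul ha.1 ha.2 hclx, S.Lam_const_mul ha.1 ha.2 hclg,
    S.Lam_const_mul ha.1 ha.2 hclT] at h2
  have h3 : 2 ^ α * Lam P Z a (TT α a K) ≤ 1 / 4 := by
    have := mul_le_mul_of_nonneg_left (hC a ha.1 ha.2 K hK) h2α.le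
    linarith
  have h4 : α * 2 ^ α * a * Lam P Z a (fun x : ℝ => x) ≤ 1 / 4 :=
    le_trans (mul_le_mul_of_nonneg_left hLx (by have := ha.1; positivity)) hs
  have h5 : 1 / 2 ≤ CK * a ^ (-α) * Lam P Z a (fun x => (a * x) ^ (m + 1) / (1 + a * x)) := by
    linarith
  have h6 : a ^ α * (a ^ (-α)) = 1 := by rw [← Real.rpow_add ha.1]; simp
  have haα' : 0 < a ^ α := Real.rpow_pos_of_pos ha.1 _
  have h7 := mul_le_mul_of_nonneg_left h5 haα'.le
  rw [div_mul_eq_mul_div, one_mul, div_le_iff₀ (by positivity)]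
  calc a ^ α = 2 * (a ^ α * (1 / 2)) := by ring
    _ ≤ 2 * (a ^ α * (CK * a ^ (-α) * Lam P Z a (fun x => (a * x) ^ (m + 1) / (1 + a * x)))) := by
      linarith
    _ = (a ^ α * a ^ (-α)) * (Lam P Z a (fun x => (a * x) ^ (m + 1) / (1 + a * x)) *
        (2 * CK)) := by ring
    _ = _ := by rw [h6, one_mul]

end

end Pool.Agent.H393R3.DHPos
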