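import Mathlib

set_option autoImplicit false

/-!
A representation of the color algebra `E_7({2,3})` (six colors) on the cyclic group `Z/217`.
The colors of the residues `1, ..., 216` are packed in base 8 into the natural number `T`.
-/

namespace Pool.Agent.H393R3.Ramsey217

/-- The packed color table: digit `k` in base `8` is the color of the residue `k`, for `1 <= k <= 216`. -/
def T : Nat := 174531263398563828049876869665288574186125573767649677655153598596109341576418461199679238692185233637363731516059849327260442276904999687885243297373694045523781705437376226836923597646930788928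

/-- Color of the residue `k`. -/
def col (k : Nat) : Nat := Nat.shiftRight T (3 * k) % 8

/-- Bit mask of the color pairs `(col x, col (z - x))` for `x < n`, `x` not `0` or `z`. -/
def acc (z : Nat) : Nat → Nat
  | 0 => 0
  | n + 1 => bif (Nat.beq n 0 || Nat.beq n z) then acc z n
      else Nat.lor (acc z n) (Nat.shiftLeft 1 (6 * col n + col ((z + 217 - n) % 217)))

/-- The mask of all pairs except `(i, i)`. -/
def good (i : Nat) : Nat := Nat.xor 68719476735 (Nat.shiftLeft 1 (7 * i))

/-- Check of all the nonzero residues below `n`. -/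
def chk : Nat → Bool
  | 0 => true
  | n + 1 => (Nat.beq n 0 || (Nat.beq (acc n 217) (good (col n)) && Nat.blt (col n) 6
      && Nat.beq (col (217 - n)) (col n))) && chk n

theorem chk217 : chk 217 = true := by decide +kernel

theorem chk_spec (n : Nat) (h : chk n = true) (k : Nat) (hk : k < n) (h0 : k ≠ 0) :
    acc k 217 = good (col k) ∧ col k < 6 ∧ col (217 - k) = col k := by
  induction n with
  | zero => omega
  | succ n ih =>
    simp only [chk, Bool.and_eq_true, Bool.or_eq_true, Nat.beq_eq, Nat.blt_eq] at h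
    by_cases hkn : k = n
    · subst hkn
      rcases h.1 with h1 | h1
      · exact absurd h1 h0
      · exact ⟨h1.1.1, h1.1.2, h1.2⟩
    · exact ih h.2 (by omega)

theorem main_spec (k : Nat) (hk : k < 217) (h0 : k ≠ 0) :
    acc k 217 = good (col k) ∧ col k < 6 ∧ col (217 - k) = col k :=
  chk_spec 217 chk217 k hk h0

theorem acc_testBit (z n b : Nat) :
    (acc z n).testBit b = true ↔
      ∃ x, x < n ∧ x ≠ 0 ∧ x ≠ z ∧ 6 * col x + col ((z + 217 - x) % 217) = b := by
  induction n with
  | zero => simp [acc]
  | succ n ih =>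
    simp only [acc]
    by_cases hc : (Nat.beq n 0 || Nat.beq n z) = true
    · rw [hc]
      simp only [cond_true]
      rw [ih]
      simp only [Bool.or_eq_true, Nat.beq_eq] at hc
      constructor
      · rintro ⟨x, h1, h2, h3, h4⟩
        exact ⟨x, by omega, h2, h3, h4⟩
      · rintro ⟨x, h1, h2, h3, h4⟩
        refine ⟨x, ?_, h2, h3, h4⟩
        rcases hc with hc | hc <;> omega
    · have hc' : (Nat.beq n 0 || Nat.beq n z) = false := Bool.eq_false_iff.mpr hc
      rw [hc']
      simp only [cond_false]
      have e1 : (Nat.lor (acc z n) (Nat.shiftLeft 1 (6 * col n + col ((z + 217 - n) % 217)))).testBit b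
          = ((acc z n).testBit b || (1 <<< (6 * col n + col ((z + 217 - n) % 217))).testBit b) := by
        exact Nat.testBit_or _ _ _
      rw [e1, Bool.or_eq_true, ih]
      simp only [Bool.or_eq_true, Nat.beq_eq, not_or] at hc
      constructor
      · rintro (⟨x, h1, h2, h3, h4⟩ | h)
        · exact ⟨x, by omega, h2, h3, h4⟩
        · refine ⟨n, by omega, hc.1, hc.2, ?_⟩
          rw [Nat.one_shiftLeft, Nat.testBit_two_pow] at h
          exact of_decide_eq_true h
      · rintro ⟨x, h1, h2, h3, h4⟩
        by_cases hx : x = n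
        · right
          subst hx
          rw [Nat.one_shiftLeft, Nat.testBit_two_pow]
          exact decide_eq_true h4
        · left
          exact ⟨x, by omega, h2, h3, h4⟩

theorem good_testBit (i b : Nat) (hb : b < 36) :
    (good i).testBit b = true ↔ b ≠ 7 * i := by
  have e1 : (good i).testBit b
      = ((2 ^ 36 - 1 : Nat).testBit b ^^ (1 <<< (7 * i)).testBit b) := by
    exact Nat.testBit_xor _ _ _
  rw [e1, Nat.testBit_two_pow_sub_one, Nat.one_shiftLeft, Nat.testBit_two_pow]
  simp [hb]
  omega

/-- Difference modulo 217. -/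
def d (x y : Fin 217) : Nat := (x.val + 217 - y.val) % 217

theorem d_lt (x y : Fin 217) : d x y < 217 := Nat.mod_lt _ (by norm_num)

theorem d_ne (x y : Fin 217) (h : x ≠ y) : d x y ≠ 0 := by
  have : x.val ≠ y.val := fun e => h (Fin.ext e)
  have h1 := x.isLt
  have h2 := y.isLt
  unfold d
  omega

theorem d_symm (x y : Fin 217) (h : x ≠ y) : d y x = 217 - d x y := by
  have : x.val ≠ y.val := fun e => h (Fin.ext e)
  have h1 := x.isLt
  have h2 := y.isLt
  unfold d
  omega

theorem d_trans (x y z : Fin 217) : d y z = (d x z + 217 - d x y) % 217 := by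
  have h1 := x.isLt
  have h2 := y.isLt
  have h3 := z.isLt
  unfold d
  omega

/-- The coloring of pairs. -/
def c (x y : Fin 217) : Fin 6 := ⟨col (d x y) % 6, Nat.mod_lt _ (by norm_num)⟩

theorem c_val (x y : Fin 217) (h : x ≠ y) : (c x y).val = col (d x y) :=
  Nat.mod_eq_of_lt (main_spec _ (d_lt x y) (d_ne x y h)).2.1

theorem c_symm (x y : Fin 217) : c x y = c y x := by
  by_cases h : x = y
  · subst h; rfl
  · apply Fin.ext
    rw [c_val x y h, c_val y x (Ne.symm h), d_symm x y h]
    exact ((main_spec _ (d_lt x y) (d_ne x y h)).2.2).symm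

theorem c_surj (i : Fin 6) : ∃ x y : Fin 217, x ≠ y ∧ c x y = i := by
  revert i
  decide +kernel

theorem c_mono (x y z : Fin 217) (hxy : x ≠ y) (hyz : y ≠ z) (hxz : x ≠ z) :
    ¬ (c x y = c y z ∧ c y z = c x z) := by
  rintro ⟨h1, h2⟩
  have k1 := c_val x y hxy
  have k2 := c_val y z hyz
  have k3 := c_val x z hxz
  rw [h1, h2] at k1
  rw [h2] at k2
  obtain ⟨m1, m2, m3⟩ := main_spec _ (d_lt x z) (d_ne x z hxz)
  have hb : (acc (d x z) 217).testBit (7 * col (d x z)) = true := by
    rw [acc_testBit]
    refine ⟨d x y, d_lt x y, d_ne x y hxy, ?_, ?_⟩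
    · intro e
      have h := d_ne y z hyz
      rw [d_trans x y z, e] at h
      apply h
      have := d_lt x z
      omega
    · rw [← d_trans x y z, ← k1, ← k2, ← k3]
      omega
  rw [m1, good_testBit _ _ (by omega)] at hb
  exact hb rfl

theorem c_rich (x y : Fin 217) (hxy : x ≠ y) (j k : Fin 6) (hjk : ¬ (j = c x y ∧ k = c x y)) :
    ∃ z, z ≠ x ∧ z ≠ y ∧ c x z = j ∧ c z y = k := by
  obtain ⟨m1, m2, m3⟩ := main_spec _ (d_lt x y) (d_ne x y hxy)
  have k1 := c_val x y hxy
  have hj := j.isLt
  have hk := k.isLt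
  have hb : (acc (d x y) 217).testBit (6 * j.val + k.val) = true := by
    rw [m1, good_testBit _ _ (by omega)]
    intro e
    apply hjk
    constructor
    · apply Fin.ext
      omega
    · apply Fin.ext
      omega
  rw [acc_testBit] at hb
  obtain ⟨n, n1, n2, n3, n4⟩ := hb
  have hx := x.isLt
  have hy := y.isLt
  let z : Fin 217 := ⟨(x.val + 217 - n) % 217, Nat.mod_lt _ (by norm_num)⟩
  have hz : z.val = (x.val + 217 - n) % 217 := rfl
  have e1 : d x z = n := by
    unfold d
    rw [hz]
    omega
  have hzx : z ≠ x := by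
    intro e
    rw [e] at hz
    omega
  have e2 : d z y = (d x y + 217 - n) % 217 := by
    rw [d_trans x z y, e1]
  have hzy : z ≠ y := by
    intro e
    rw [e] at e1
    exact n3 e1.symm
  have q1 := c_val x z (Ne.symm hzx)
  have q2 := c_val z y hzy
  have r1 := (main_spec _ (d_lt x z) (d_ne x z (Ne.symm hzx))).2.1
  have r2 := (main_spec _ (d_lt z y) (d_ne z y hzy)).2.1
  rw [← e2, ← e1] at n4
  refine ⟨z, hzx, hzy, ?_, ?_⟩
  · apply Fin.ext
    omega
  · apply Fin.ext
    omega

theorem not_isPrimePow_217 : ¬ IsPrimePow 217 := by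
  intro h
  rw [isPrimePow_nat_iff] at h
  obtain ⟨p, k, hp, hk, e⟩ := h
  have h7 : 7 ∣ p := by
    apply (Nat.Prime.dvd_of_dvd_pow (by norm_num : Nat.Prime 7) (n := k))
    rw [e]
    norm_num
  have h31 : 31 ∣ p := by
    apply (Nat.Prime.dvd_of_dvd_pow (by norm_num : Nat.Prime 31) (n := k))
    rw [e]
    norm_num
  have a1 := (Nat.prime_dvd_prime_iff_eq (by norm_num) hp).1 h7
  have a2 := (Nat.prime_dvd_prime_iff_eq (by norm_num) hp).1 h31
  omega

end Pool.Agent.H393R3.Ramsey217
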